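import Mathlib
import Pool.Agent.Helper33.BSPL.Defs
import Pool.Agent.Helper33.BSPL.Main

namespace Pool.Agent.Results.MP_c6e2b4_co.LimitExists

open Pool.Agent.Helper33.BSPL

/-- The greatest axis-aligned partition complexity `f n` of `n` pairwise disjoint axis-aligned
rectangles exists for every `n` and is superadditive, and `f n / n` converges to its supremum. -/
theorem result : ∃ (f : ℕ → ℕ) (L : ℝ), (∀ n, MaxComplexity n (f n)) ∧
    (∀ m n, f m + f n ≤ f (m + n)) ∧
    Filter.Tendsto (fun n : ℕ => (f n : ℝ) / n) Filter.atTop (nhds L) ∧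
    IsLUB (Set.range fun n : ℕ => (f n : ℝ) / n) L :=
  main

end Pool.Agent.Results.MP_c6e2b4_co.LimitExists
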