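import Mathlib
import Pool.Agent.Helper30.BSP.Defs
import Pool.Agent.Helper30.BSP.Main

namespace Pool.Agent.Results.MP_c6e2b4_co.LowerBound

open Pool.Agent.Helper30.BSP

/-- For every real `c` below the infinite product of the numbers `1 + 2^(-k)`, `k ≥ 1`, and for
all sufficiently large `n` there is a set of `n` pairwise disjoint axis-aligned rectangles each of
whose axis-aligned binary space partitions has at least `c * n` fragments. -/
theorem result (c : ℝ) (hc : c < ∏' k : ℕ, (1 + 1 / (2 : ℝ) ^ (k + 1))) :
    ∀ᶠ n : ℕ in Filter.atTop, ∃ S : Finset Rect, S.card = n ∧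
      (S : Set Rect).PairwiseDisjoint Rect.toSet ∧
      ∀ T : Tree, IsBSP S T Set.univ → c * n ≤ size S T Set.univ :=
  main c hc

end Pool.Agent.Results.MP_c6e2b4_co.LowerBound
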