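import Mathlib
import Pool.Agent.Helper30.BSP.Defs
import Pool.Agent.RB.Strict
import Pool.Agent.Helper57.BSP.Main

namespace Pool.Agent.Results.MP_c6e2b4_co.StabbedSets

open Pool.Agent.Helper30.BSP

/-- Let `S` be a set of `n` pairwise disjoint axis-aligned rectangles which all have the same
height or, more generally, each of which is crossed by exactly one line of some finite set of
horizontal lines. Then `S` has an axis-aligned binary space partition of the plane, in which every
cell that is cut meets at least two of the rectangles, with at most `5 n / 2` fragments. -/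
theorem result (S : Finset Rect) (hS : (S : Set Rect).PairwiseDisjoint Rect.toSet)
    (h : (∃ t : ℝ, ∀ R ∈ S, R.b2 - R.a2 = t) ∨
      ∃ L : Finset ℝ, ∀ R ∈ S, ∃! z, z ∈ L ∧ R.a2 < z ∧ z < R.b2) :
    ∃ T : Tree, IsBSP S T Set.univ ∧ Pool.RB.Strict S T Set.univ ∧
      2 * size S T Set.univ ≤ 5 * S.card := by
  rcases h with ⟨t, ht⟩ | ⟨L, hL⟩
  · obtain ⟨L, hL⟩ := Pool.Agent.Helper57.BSP.lines S t ht
    exact Pool.Agent.Helper57.BSP.stabbed S hS L hL
  · exact Pool.Agent.Helper57.BSP.stabbed S hS L hL

end Pool.Agent.Results.MP_c6e2b4_co.StabbedSets
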