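import Mathlib
import Pool.Agent.Helper30.BSP.Defs
import Pool.Agent.RB.Strict
import Pool.Agent.RC.Main3

namespace Pool.Agent.Results.MP_c6e2b4_co.UpperBound

open Pool.Agent.Helper30.BSP

/-- Every set of `n ≥ 1` pairwise disjoint axis-aligned rectangles has an axis-aligned binary space
partition of the plane, in which every cell that is cut meets at least two of the rectangles, with at
most `(8 n - 5) / 3` fragments. -/
theorem result (S : Finset Rect) (hne : S.Nonempty)
    (hS : (S : Set Rect).PairwiseDisjoint Rect.toSet) :
    ∃ T : Tree, IsBSP S T Set.univ ∧ Pool.RB.Strict S T Set.univ ∧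
      3 * size S T Set.univ + 5 ≤ 8 * S.card :=
  Pool.RC.qReC S hne hS

end Pool.Agent.Results.MP_c6e2b4_co.UpperBound
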